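import Pool.Agent.V11330.FS.Law

set_option autoImplicit false

open Set Filter Topology MeasureTheory ProbabilityTheory
open scoped NNReal ENNReal

namespace Pool.Agent.Results.MP_a9102c_pr.Prepend

open Pool.Agent.TH970 Pool.Agent.V11330.FS

/-- The law of a process on the space of all real paths (product sigma-field). -/
noncomputable def pathLaw {Ω : Type} [MeasurableSpace Ω] (P : Measure Ω) (X : ℝ≥0 → Ω → ℝ) :
    Measure (ℝ≥0 → ℝ) := P.map fun ω t => X t ω

/-- `W` is Wiener measure: the law of a standard Brownian motion started at `0`. -/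
def IsWiener (W : Measure (ℝ≥0 → ℝ)) : Prop :=
  ∃ (Ω₀ : Type) (_ : MeasurableSpace Ω₀) (P₀ : Measure Ω₀) (B : ℝ≥0 → Ω₀ → ℝ),
    (∀ t, Measurable (B t)) ∧ IsBrownianReal B P₀ ∧ W = pathLaw P₀ B

/-- The process obtained by putting the random piece `(T, Y)` in front of `X`. -/
noncomputable def prepend {Ω : Type} (T : Ω → ℝ≥0) (Y X : ℝ≥0 → Ω → ℝ) : ℝ≥0 → Ω → ℝ :=
  open Classical in
  fun t ω => if t ≤ T ω then Y t ω else Y (T ω) ω + X (t - T ω) ω

lemma prepend_eq {Ω₀ : Type} [MeasurableSpace Ω₀] {P₀ : Measure Ω₀} [IsProbabilityMeasure P₀] {B : ℝ≥0 → Ω₀ → ℝ}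
    (hB : CBM P₀ B) {s : (ℝ≥0 → ℝ) → ℝ} :
    prepend (fun z => (lev B s z : ℝ≥0)) (fun t z => ZZ B s z t)
      (fun t (z : (Ω₀ × Ω₀) × ℝ) => B t z.1.1) = fun t z => ZZ B s z t := by
  classical
  funext t z
  unfold prepend
  by_cases h : t ≤ (lev B s z : ℝ≥0)
  · rw [if_pos h]
  · rw [if_neg h]
    push Not at h
    obtain ⟨r, hr⟩ := exists_add_of_le h.le
    have h2 : t - (lev B s z : ℝ≥0) = r := by rw [hr, add_tsub_cancel_left]
    rw [h2]
    have h3 := YY_add (n := lev B s z) (x := path B z.1.1) (η := path B z.1.2) (hB.path_zero _) 0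
    have h4 := YY_add (n := lev B s z) (x := path B z.1.1) (η := path B z.1.2) (hB.path_zero _) r
    rw [add_zero, hB.path_zero, add_zero] at h3
    show YY (lev B s z) (path B z.1.1) (path B z.1.2) (lev B s z) + B r z.1.1 =
      YY (lev B s z) (path B z.1.1) (path B z.1.2) t
    rw [h3, hr, h4]
    rfl

/-- **A process whose law is absolutely continuous with respect to Wiener measure becomes a
Brownian motion after a random piece is put in front of it.** -/
theorem result {Ω : Type} [MeasurableSpace Ω] (P : Measure Ω) [IsProbabilityMeasure P]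
    (X : ℝ≥0 → Ω → ℝ) (hXm : ∀ t, Measurable (X t)) (W : Measure (ℝ≥0 → ℝ)) (hW : IsWiener W)
    (hac : pathLaw P X ≪ W) :
    ∃ (Ω' : Type) (_ : MeasurableSpace Ω') (P' : Measure Ω') (X' : ℝ≥0 → Ω' → ℝ)
      (T : Ω' → ℝ≥0) (Y : ℝ≥0 → Ω' → ℝ),
      IsProbabilityMeasure P' ∧
      (∀ t, Measurable (X' t)) ∧ (∀ ω, Continuous fun t => X' t ω) ∧
      pathLaw P' X' = pathLaw P X ∧
      Measurable T ∧ (∀ t, Measurable (Y t)) ∧ (∀ ω, Y 0 ω = 0) ∧
      (∀ ω, Continuous fun t => Y t ω) ∧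
      IsBrownianReal (prepend T Y X') P' := by
  classical
  obtain ⟨Ω₀, _, P₀, B₀, hB₀m, hB₀, rfl⟩ := hW
  have hP₀ : IsProbabilityMeasure P₀ := hB₀.isGaussianProcess.isProbabilityMeasure
  obtain ⟨B, hB, hae⟩ := Pool.Agent.V11330.BMTools.exists_CBM hB₀
  have hlaw : pathLaw P₀ B₀ = P₀.map (path B) := law_unique hB₀.toIsPreBrownianReal hB.pre hB₀m hB.meas
  rw [hlaw] at hac
  set W := P₀.map (path B) with hWdef
  have hWp : IsProbabilityMeasure W := Measure.isProbabilityMeasure_map hB.mpath.aemeasurable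
  set μ := pathLaw P X with hμ
  have hμp : IsProbabilityMeasure μ :=
    Measure.isProbabilityMeasure_map (measurable_path hXm).aemeasurable
  set s : (ℝ≥0 → ℝ) → ℝ := fun x => (μ.rnDeriv W x).toReal with hs
  have hsm : Measurable s := (Measure.measurable_rnDeriv μ W).ennreal_toReal
  have hs0 : ∀ x, 0 ≤ s x := fun x => ENNReal.toReal_nonneg
  have hsi : Integrable s W := Measure.integrable_toReal_rnDeriv
  have hs1 : ∫ x, s x ∂W = 1 := by
    rw [hs, Measure.integral_toReal_rnDeriv hac]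
    simp
  have hdens : ∀ A, MeasurableSet A → ∫⁻ x in A, ENNReal.ofReal (s x) ∂W = μ A := by
    intro A hA
    have h1 : ∫⁻ x in A, ENNReal.ofReal (s x) ∂W = ∫⁻ x in A, μ.rnDeriv W x ∂W := by
      refine lintegral_congr_ae (ae_restrict_of_ae ?_)
      filter_upwards [Measure.rnDeriv_lt_top μ W] with x hx
      rw [hs]
      exact ENNReal.ofReal_toReal hx.ne
    rw [h1, Measure.setLIntegral_rnDeriv hac]
  have hlam : Measurable (lev B s) := measurable_lev hB hsm hs0
  have hZm := measurable_ZZ hB hsm hs0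
  refine ⟨(Ω₀ × Ω₀) × ℝ, inferInstance, QQ P₀ B s, fun t z => B t z.1.1,
    fun z => (lev B s z : ℝ≥0), fun t z => ZZ B s z t, isProb_QQ hB hsm hs0 hsi hs1,
    fun t => (hB.meas t).comp (measurable_fst.comp measurable_fst), fun z => hB.cont z.1.1,
    ?_, ?_, ?_, ?_, ?_, ?_⟩
  · have hm1 : Measurable (fun z : (Ω₀ × Ω₀) × ℝ => path B z.1.1) :=
      hB.mpath.comp (measurable_fst.comp measurable_fst)
    ext A hA
    have h1 : pathLaw (QQ P₀ B s) (fun t z => B t z.1.1) A = QQ P₀ B s {z | path B z.1.1 ∈ A} :=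
      Measure.map_apply hm1 hA
    rw [h1, QQ_first hB hsm hA]
    exact hdens A hA
  · exact measurable_from_nat.comp hlam
  · intro t
    exact (measurable_pi_apply t).comp hZm
  · intro z
    show YY (lev B s z) (path B z.1.1) (path B z.1.2) 0 = 0
    rw [YY_le (hB.path_zero _) zero_le, tsub_zero, sub_self]
  · intro z
    exact continuous_YY _ (hB.cont _) (hB.cont _)
  · rw [prepend_eq hB]
    refine ⟨pre_of_law hB.pre hB.meas (fun t => (measurable_pi_apply t).comp hZm)
      (law_ZZ hB hsm hs0 hsi hs1), ae_of_all _ fun z => ?_⟩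
    exact continuous_YY _ (hB.cont _) (hB.cont _)

end Pool.Agent.Results.MP_a9102c_pr.Prepend
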